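import Mathlib
import Pool.Agent.H773.IE.SH

/-!
# Weak limits along ultrafilters in Hilbert spaces (subtask IE-WEAK)
-/

set_option autoImplicit false

open MeasureTheory Set Filter Topology
open scoped ENNReal

namespace Pool.Agent.H331.IE.Weak

theorem t_weak : Pool.Agent.H773.IE.S_weak := by
  intro H _ _ _ ι 𝒰 f C hC
  have hC0 : 0 ≤ C := by
    obtain ⟨i⟩ := (𝒰.nonempty_of_mem (univ_mem)).to_type
    exact (norm_nonneg _).trans (hC i)
  have hb : ∀ w i, |inner ℝ (f i) w| ≤ C * ‖w‖ := fun w i =>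
    (abs_real_inner_le_norm _ _).trans (mul_le_mul_of_nonneg_right (hC i) (norm_nonneg _))
  have hex : ∀ w, ∃ l : ℝ, |l| ≤ C * ‖w‖ ∧ Tendsto (fun i => inner ℝ (f i) w) 𝒰 (𝓝 l) := by
    intro w
    have hcp : IsCompact (Icc (-(C * ‖w‖)) (C * ‖w‖)) := isCompact_Icc
    obtain ⟨l, hl, hle⟩ := hcp.ultrafilter_le_nhds' (𝒰.map fun i => inner ℝ (f i) w) (by
      rw [Ultrafilter.mem_map]
      refine Filter.univ_mem' fun i => ?_
      exact abs_le.1 (hb w i))
    exact ⟨l, abs_le.2 hl, hle⟩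
  choose L hL1 hL2 using hex
  have hadd : ∀ w w', L (w + w') = L w + L w' := by
    intro w w'
    refine tendsto_nhds_unique (hL2 (w + w')) (((hL2 w).add (hL2 w')).congr fun i => ?_)
    exact (inner_add_right _ _ _).symm
  have hsmul : ∀ (c : ℝ) w, L (c • w) = c * L w := by
    intro c w
    refine tendsto_nhds_unique (hL2 (c • w)) (((hL2 w).const_mul c).congr fun i => ?_)
    exact (real_inner_smul_right _ _ _).symm
  let Ll : H →ₗ[ℝ] ℝ :=
    { toFun := L
      map_add' := hadd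
      map_smul' := fun c w => by simpa using hsmul c w }
  let Lc : H →L[ℝ] ℝ := Ll.mkContinuous C fun w => by
    rw [Real.norm_eq_abs]
    exact hL1 w
  let v : H := (InnerProductSpace.toDual ℝ H).symm Lc
  have hv : ∀ w, inner ℝ v w = L w := fun w => InnerProductSpace.toDual_symm_apply
  have hlim : ∀ w, Tendsto (fun i => inner ℝ (f i) w) 𝒰 (𝓝 (inner ℝ v w)) := fun w => by
    rw [hv w]
    exact hL2 w
  refine ⟨v, hlim, fun e r hr => ?_⟩
  have hr0 : 0 ≤ r := by
    obtain ⟨i, hi⟩ := (𝒰.nonempty_of_mem hr)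
    exact (norm_nonneg _).trans hi
  have h1 : Tendsto (fun i => inner ℝ (f i - e) (v - e)) 𝒰 (𝓝 (inner ℝ (v - e) (v - e))) := by
    have h2 := (hlim (v - e)).sub (tendsto_const_nhds (x := inner ℝ e (v - e)))
    rw [← inner_sub_left] at h2
    refine h2.congr fun i => ?_
    exact (inner_sub_left _ _ _).symm
  have h3 : inner ℝ (v - e) (v - e) ≤ r * ‖v - e‖ := by
    refine le_of_tendsto h1 (hr.mono fun i hi => ?_)
    exact (real_inner_le_norm _ _).trans (mul_le_mul_of_nonneg_right hi (norm_nonneg _))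
  rw [real_inner_self_eq_norm_sq] at h3
  rcases (norm_nonneg (v - e)).eq_or_lt with h0 | h0
  · rw [← h0]
    exact hr0
  · rw [pow_two] at h3
    exact le_of_mul_le_mul_right h3 h0

end Pool.Agent.H331.IE.Weak
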